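import Pool.Agent.H14R3.KK.Defs
import Pool.Agent.H14R3.KK.S.LMAXB
import Pool.Agent.H14R3.KK.S.INTEG
import Pool.Agent.H14R3.KK.S.DEG

/-! Task POSB of project KK (MP_d47e08_pr): lower bound for the noise. -/

set_option autoImplicit false
open MeasureTheory ProbabilityTheory Filter Topology

namespace KK14

namespace POSBx

noncomputable section

/-- sign -/
def sg (x : ℝ) : ℝ := if 0 ≤ x then 1 else -1

theorem sg_sq (x : ℝ) : sg x ^ 2 = 1 := by
  unfold sg
  split_ifs <;> norm_num

theorem mul_sg (x : ℝ) : x * sg x = |x| := by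
  unfold sg
  split_ifs with h
  · rw [mul_one, abs_of_nonneg h]
  · rw [abs_of_neg (not_le.1 h)]
    ring

theorem abs_sg (x : ℝ) : |sg x| = 1 := by
  unfold sg
  split_ifs <;> norm_num

theorem measurable_sg : Measurable sg :=
  Measurable.ite measurableSet_Ici measurable_const measurable_const

/-! ### the first absolute moment -/

theorem integrable_id : Integrable (fun x : ℝ => x) (gaussianReal 0 1) := by
  have h := (memLp_id_gaussianReal (μ := 0) (v := 1) 1).integrable (by simp)
  exact h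

theorem integral_cos : ∫ x, Real.cos x ∂(gaussianReal 0 1) = Real.exp (-(1 / 2)) := by
  have h1 := charFun_gaussianReal (μ := 0) (v := 1) 1
  rw [charFun_apply_real] at h1
  have h2 : ∫ x, Real.cos x ∂(gaussianReal 0 1) =
      (∫ x, Complex.exp ((1 : ℝ) * x * Complex.I) ∂(gaussianReal 0 1)).re := by
    have hint : Integrable (fun x : ℝ => Complex.exp ((1 : ℝ) * x * Complex.I))
        (gaussianReal 0 1) := by
      refine Integrable.of_bound (C := 1) (by fun_prop) (Filter.Eventually.of_forall fun x => ?_)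
      have : ((1 : ℝ) : ℂ) * x * Complex.I = ((1 * x : ℝ) : ℂ) * Complex.I := by push_cast; ring
      rw [this, Complex.norm_exp_ofReal_mul_I]
    have h3 := integral_re hint
    simp only [RCLike.re_eq_complex_re] at h3
    rw [← h3]
    refine integral_congr_ae (Filter.Eventually.of_forall fun x => ?_)
    simp only
    have : ((1 : ℝ) : ℂ) * x * Complex.I = ((x : ℝ) : ℂ) * Complex.I := by push_cast; ring
    rw [this, Complex.exp_ofReal_mul_I_re]
  rw [h2, h1]
  have : ((1 : ℝ) : ℂ) * ((0 : ℝ) : ℂ) * Complex.I - ((1 : NNReal) : ℂ) * ((1 : ℝ) : ℂ) ^ 2 / 2 =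
      ((-(1 / 2) : ℝ) : ℂ) := by push_cast; ring
  rw [this, Complex.exp_ofReal_re]

theorem one_sub_cos_le (x : ℝ) : 1 - Real.cos x ≤ |x| := by
  have h1 := Real.one_sub_sq_div_two_le_cos (x := x)
  have h2 := Real.neg_one_le_cos x
  rcases le_or_gt |x| 2 with h | h
  · have h3 : x ^ 2 = |x| ^ 2 := (sq_abs x).symm
    have h4 := abs_nonneg x
    nlinarith
  · linarith

theorem abs_mean : 1 / 4 ≤ ∫ x, |x| ∂(gaussianReal 0 1) := by
  have h1 : ∫ x, (1 - Real.cos x) ∂(gaussianReal 0 1) = 1 - Real.exp (-(1 / 2)) := by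
    rw [integral_sub (integrable_const _), integral_cos]
    · simp
    · refine Integrable.of_bound (C := 1) (by fun_prop) (Filter.Eventually.of_forall fun x => ?_)
      rw [Real.norm_eq_abs]
      exact Real.abs_cos_le_one x
  have h2 : ∫ x, (1 - Real.cos x) ∂(gaussianReal 0 1) ≤ ∫ x, |x| ∂(gaussianReal 0 1) := by
    refine integral_mono_of_nonneg (Filter.Eventually.of_forall fun x => ?_) integrable_id.abs
      (Filter.Eventually.of_forall fun x => one_sub_cos_le x)
    have := Real.cos_le_one x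
    simp only [Pi.zero_apply]
    linarith
  have h3 : Real.exp (-(1 / 2)) ≤ 3 / 4 := by
    rw [Real.exp_neg]
    have h4 : (4 / 3 : ℝ) ≤ Real.exp (1 / 2) := by
      have := Real.add_one_le_exp (1 / 2 : ℝ)
      linarith
    rw [show (3 / 4 : ℝ) = (4 / 3)⁻¹ by norm_num]
    exact inv_anti₀ (by norm_num) h4
  linarith

/-! ### the product measure -/

instance (n r : ℕ) : IsProbabilityMeasure (gau n r) := by
  unfold gau
  infer_instance

theorem mp_eval {n r : ℕ} (S : Sub n r) :
    MeasurePreserving (fun Z : Sub n r → ℝ => Z S) (gau n r) (gaussianReal 0 1) := by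
  unfold gau
  exact measurePreserving_eval (fun _ : Sub n r => gaussianReal 0 1) S

theorem integrable_Z {n r : ℕ} (S : Sub n r) : Integrable (fun Z : Sub n r → ℝ => Z S) (gau n r) :=
  (mp_eval S).integrable_comp_of_integrable integrable_id

theorem integral_absZ {n r : ℕ} (S : Sub n r) :
    ∫ Z, |Z S| ∂(gau n r) = ∫ x, |x| ∂(gaussianReal 0 1) := by
  rw [← (mp_eval S).map_eq, integral_map (mp_eval S).measurable.aemeasurable
    (by fun_prop)]

/-- change of sign of one coordinate -/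
theorem mp_flip {n r : ℕ} (S : Sub n r) :
    MeasurePreserving (fun (Z : Sub n r → ℝ) (T : Sub n r) => (if T = S then (-1 : ℝ) else 1) * Z T)
      (gau n r) (gau n r) := by
  unfold gau
  refine measurePreserving_pi (fun _ : Sub n r => gaussianReal 0 1)
    (fun _ : Sub n r => gaussianReal 0 1)
    (f := fun (T : Sub n r) (x : ℝ) => (if T = S then (-1 : ℝ) else 1) * x) fun T => ?_
  split_ifs
  · refine ⟨by fun_prop, ?_⟩
    have := gaussianReal_map_neg (μ := 0) (v := 1)
    simpa using this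
  · refine ⟨by fun_prop, ?_⟩
    simp

theorem integrable_prod {n r : ℕ} (S1 S2 S3 : Sub n r) :
    Integrable (fun Z : Sub n r → ℝ => sg (Z S1) * Z S3 * sg (Z S2)) (gau n r) := by
  refine (integrable_Z S3).mono ?_ (Filter.Eventually.of_forall fun Z => ?_)
  · exact (((measurable_sg.comp (measurable_pi_apply S1)).mul (measurable_pi_apply S3)).mul
      (measurable_sg.comp (measurable_pi_apply S2))).aestronglyMeasurable
  · rw [Real.norm_eq_abs, Real.norm_eq_abs, abs_mul, abs_mul, abs_sg, abs_sg]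
    simp

theorem integral_prod {n r : ℕ} (S1 S2 S3 : Sub n r) (h1 : S1 ≠ S3) (h2 : S2 ≠ S3) :
    ∫ Z, sg (Z S1) * Z S3 * sg (Z S2) ∂(gau n r) = 0 := by
  have hm : Measurable (fun Z : Sub n r → ℝ => sg (Z S1) * Z S3 * sg (Z S2)) :=
    ((measurable_sg.comp (measurable_pi_apply S1)).mul (measurable_pi_apply S3)).mul
      (measurable_sg.comp (measurable_pi_apply S2))
  have h3 : ∫ Z, sg (Z S1) * Z S3 * sg (Z S2) ∂(gau n r) =
      - ∫ Z, sg (Z S1) * Z S3 * sg (Z S2) ∂(gau n r) := by
    conv_lhs => rw [← (mp_flip S3).map_eq]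
    rw [integral_map (mp_flip S3).measurable.aemeasurable hm.aestronglyMeasurable,
      ← integral_neg]
    refine integral_congr_ae (Filter.Eventually.of_forall fun Z => ?_)
    simp [h1, h2]
  linarith

/-! ### the test vector -/

variable {n q l : ℕ}

/-- signs of the first row -/
def cc (I0 : Sub n l) (Z : Sub n (2 * q) → ℝ) (K : Sub n l) : ℝ :=
  if h : (symmDiff I0.1 K.1).card = 2 * q then sg (Z ⟨symmDiff I0.1 K.1, h⟩) else 0

theorem integral_term (hq : 1 ≤ q) (I0 I J : Sub n l) :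
    Integrable (fun Z => cc (q := q) I0 Z I * kik n (2 * q) l 0 Z I J * cc I0 Z J)
      (gau n (2 * q)) ∧
    ∫ Z, cc (q := q) I0 Z I * kik n (2 * q) l 0 Z I J * cc I0 Z J ∂(gau n (2 * q)) = 0 := by
  unfold cc kik
  by_cases hI : (symmDiff I0.1 I.1).card = 2 * q
  · by_cases hJ : (symmDiff I0.1 J.1).card = 2 * q
    · by_cases hK : (symmDiff I.1 J.1).card = 2 * q
      · simp only [dif_pos hI, dif_pos hJ, dif_pos hK, zero_add]
        refine ⟨integrable_prod _ _ _, integral_prod _ _ _ ?_ ?_⟩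
        · intro h
          have h1 : symmDiff I0.1 I.1 = symmDiff I.1 J.1 := congrArg Subtype.val h
          have h2 : symmDiff (symmDiff I0.1 I.1) (symmDiff I.1 J.1) = symmDiff I0.1 J.1 := by
            rw [symmDiff_assoc, symmDiff_symmDiff_cancel_left]
          rw [h1, symmDiff_self] at h2
          rw [← h2] at hJ
          simp at hJ
          omega
        · intro h
          have h1 : symmDiff I0.1 J.1 = symmDiff I.1 J.1 := congrArg Subtype.val h
          have h2 : symmDiff (symmDiff I0.1 J.1) (symmDiff I.1 J.1) = symmDiff I0.1 I.1 := by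
            rw [symmDiff_symmDiff_symmDiff_comm, symmDiff_self, symmDiff_bot]
          rw [h1, symmDiff_self] at h2
          rw [← h2] at hI
          simp at hI
          omega
      · simp [hK]
    · simp [hJ]
  · simp [hI]

theorem kik_symm (Z : Sub n (2 * q) → ℝ) (I J : Sub n l) :
    kik n (2 * q) l 0 Z I J = kik n (2 * q) l 0 Z J I := by
  unfold kik
  have h : symmDiff I.1 J.1 = symmDiff J.1 I.1 := symmDiff_comm _ _
  simp only [h]

theorem kik_diag (hq : 1 ≤ q) (Z : Sub n (2 * q) → ℝ) (I : Sub n l) :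
    kik n (2 * q) l 0 Z I I = 0 := by
  unfold kik
  rw [dif_neg]
  rw [symmDiff_self]
  simp
  omega

theorem row (Z : Sub n (2 * q) → ℝ) (I0 J : Sub n l) :
    kik n (2 * q) l 0 Z I0 J * cc I0 Z J =
      if h : (symmDiff I0.1 J.1).card = 2 * q then |Z ⟨symmDiff I0.1 J.1, h⟩| else 0 := by
  unfold kik cc
  by_cases h : (symmDiff I0.1 J.1).card = 2 * q
  · simp only [dif_pos h, zero_add]
    exact mul_sg _
  · simp [h]

theorem cc_self (hq : 1 ≤ q) (Z : Sub n (2 * q) → ℝ) (I : Sub n l) : cc (q := q) I Z I = 0 := by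
  unfold cc
  rw [dif_neg]
  rw [symmDiff_self]
  simp
  omega

theorem cc_sq (Z : Sub n (2 * q) → ℝ) (I K : Sub n l) :
    cc (q := q) I Z K ^ 2 = if (symmDiff I.1 K.1).card = 2 * q then (1 : ℝ) else 0 := by
  unfold cc
  by_cases h : (symmDiff I.1 K.1).card = 2 * q
  · simp only [dif_pos h, if_pos h]
    exact sg_sq _
  · simp [h]

/-- the test vector -/
def tv (D : ℝ) (I0 : Sub n l) (Z : Sub n (2 * q) → ℝ) (K : Sub n l) : ℝ :=
  (1 / √2) * (if K = I0 then 1 else 0) + (1 / √(2 * D)) * cc I0 Z K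

theorem tv_unit (hq : 1 ≤ q) (I0 : Sub n l) (Z : Sub n (2 * q) → ℝ) (D : ℝ) (hD : 0 < D)
    (hD' : (∑ K : Sub n l, if (symmDiff I0.1 K.1).card = 2 * q then (1 : ℝ) else 0) = D) :
    ∑ K, tv D I0 Z K ^ 2 = 1 := by
  have e : ∀ K, tv (q := q) D I0 Z K ^ 2 = (1 / 2) * (if K = I0 then 1 else 0) +
      (1 / (2 * D)) * (if (symmDiff I0.1 K.1).card = 2 * q then (1 : ℝ) else 0) := by
    intro K
    unfold tv
    rw [add_sq, mul_pow, mul_pow, cc_sq, div_pow, div_pow, Real.sq_sqrt (by norm_num),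
      Real.sq_sqrt (by positivity), one_pow]
    by_cases hK : K = I0
    · subst hK
      rw [cc_self hq]
      simp
    · simp [hK]
  simp only [e]
  rw [Finset.sum_add_distrib, ← Finset.mul_sum, ← Finset.mul_sum, hD', Finset.sum_ite_eq']
  simp only [Finset.mem_univ, if_true]
  field_simp
  norm_num

theorem tv_form (hq : 1 ≤ q) (I0 : Sub n l) (Z : Sub n (2 * q) → ℝ) (D : ℝ) (hD : 0 < D) :
    ∑ I, ∑ J, tv D I0 Z I * kik n (2 * q) l 0 Z I J * tv D I0 Z J =
      (1 / √D) * (∑ J : Sub n l, if h : (symmDiff I0.1 J.1).card = 2 * q then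
        |Z ⟨symmDiff I0.1 J.1, h⟩| else 0) +
      (1 / (2 * D)) * ∑ I, ∑ J, cc I0 Z I * kik n (2 * q) l 0 Z I J * cc I0 Z J := by
  have hab : (1 / √2) * (1 / √(2 * D)) = 1 / (2 * √D) := by
    rw [Real.sqrt_mul (by norm_num)]
    rw [div_mul_div_comm, one_mul, ← mul_assoc, Real.mul_self_sqrt (by norm_num)]
  have hbb : (1 / √(2 * D)) * (1 / √(2 * D)) = 1 / (2 * D) := by
    rw [div_mul_div_comm, one_mul, Real.mul_self_sqrt (by positivity)]
  have hrow : ∑ J, kik n (2 * q) l 0 Z I0 J * cc I0 Z J =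
      ∑ J : Sub n l, if h : (symmDiff I0.1 J.1).card = 2 * q then
        |Z ⟨symmDiff I0.1 J.1, h⟩| else 0 := Finset.sum_congr rfl fun J _ => row Z I0 J
  rw [← hrow]
  have e1 : ∀ I, ∑ J, tv D I0 Z I * kik n (2 * q) l 0 Z I J * tv D I0 Z J =
      tv D I0 Z I * ((1 / √2) * kik n (2 * q) l 0 Z I I0 +
        (1 / √(2 * D)) * ∑ J, kik n (2 * q) l 0 Z I J * cc I0 Z J) := by
    intro I
    have : ∀ J, tv D I0 Z I * kik n (2 * q) l 0 Z I J * tv D I0 Z J =
        tv D I0 Z I * ((1 / √2) * (kik n (2 * q) l 0 Z I J * (if J = I0 then 1 else 0)) +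
        (1 / √(2 * D)) * (kik n (2 * q) l 0 Z I J * cc I0 Z J)) := by
      intro J
      have h0 : tv (q := q) D I0 Z J = (1 / √2) * (if J = I0 then 1 else 0) +
        (1 / √(2 * D)) * cc I0 Z J := rfl
      rw [h0]
      ring
    simp only [this]
    rw [← Finset.mul_sum, Finset.sum_add_distrib, ← Finset.mul_sum, ← Finset.mul_sum]
    congr 3
    simp
  simp only [e1]
  have e2 : ∀ I, tv D I0 Z I * ((1 / √2) * kik n (2 * q) l 0 Z I I0 +
        (1 / √(2 * D)) * ∑ J, kik n (2 * q) l 0 Z I J * cc I0 Z J) =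
      (1 / √2) * ((if I = I0 then 1 else 0) * ((1 / √2) * kik n (2 * q) l 0 Z I I0 +
        (1 / √(2 * D)) * ∑ J, kik n (2 * q) l 0 Z I J * cc I0 Z J)) +
      ((1 / √2) * (1 / √(2 * D))) * (kik n (2 * q) l 0 Z I0 I * cc I0 Z I) +
      ((1 / √(2 * D)) * (1 / √(2 * D))) * ∑ J, cc I0 Z I * kik n (2 * q) l 0 Z I J * cc I0 Z J := by
    intro I
    have h0 : tv (q := q) D I0 Z I = (1 / √2) * (if I = I0 then 1 else 0) +
        (1 / √(2 * D)) * cc I0 Z I := rfl
    have h1 : ∑ J, cc I0 Z I * kik n (2 * q) l 0 Z I J * cc I0 Z J =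
        cc I0 Z I * ∑ J, kik n (2 * q) l 0 Z I J * cc I0 Z J := by
      rw [Finset.mul_sum]
      exact Finset.sum_congr rfl fun J _ => by ring
    rw [h0, h1, kik_symm Z I0 I]
    ring
  simp only [e2]
  rw [Finset.sum_add_distrib, Finset.sum_add_distrib, ← Finset.mul_sum, ← Finset.mul_sum,
    ← Finset.mul_sum]
  simp only [ite_mul, one_mul, zero_mul, Finset.sum_ite_eq', Finset.mem_univ, if_true]
  rw [kik_diag hq, mul_zero, zero_add, ← mul_assoc, hab, hbb]
  ring

end

end POSBx

open POSBx in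
theorem POSB (n q l : ℕ) (hq : 1 ≤ q) (hn : l ≤ n) :
    (1 / 4 : ℝ) * √((l.choose q : ℝ) * ((n - l).choose q : ℝ)) ≤ Elm n (2 * q) l 0 := by
  obtain ⟨T, -, hT⟩ := Finset.exists_subset_card_eq (s := (Finset.univ : Finset (Fin n))) (n := l)
    (by simpa using hn)
  let I0 : Sub n l := ⟨T, hT⟩
  have hdeg := DEG n q l I0
  set D : ℝ := (l.choose q : ℝ) * ((n - l).choose q : ℝ) with hDdef
  have hD0 : 0 ≤ D := by positivity
  rcases hD0.lt_or_eq with hD | hD
  · have hint1 : ∀ J : Sub n l, Integrable (fun Z : Sub n (2 * q) → ℝ =>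
        if h : (symmDiff I0.1 J.1).card = 2 * q then |Z ⟨symmDiff I0.1 J.1, h⟩| else 0)
        (gau n (2 * q)) := by
      intro J
      by_cases h : (symmDiff I0.1 J.1).card = 2 * q
      · simp only [dif_pos h]
        exact (integrable_Z _).abs
      · simp [h]
    have hint2 : Integrable (fun Z : Sub n (2 * q) → ℝ => (1 / √D) * (∑ J : Sub n l,
        if h : (symmDiff I0.1 J.1).card = 2 * q then |Z ⟨symmDiff I0.1 J.1, h⟩| else 0))
        (gau n (2 * q)) := (integrable_finsetSum _ fun J _ => hint1 J).const_mul _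
    have hint3 : Integrable (fun Z : Sub n (2 * q) → ℝ => (1 / (2 * D)) *
        ∑ I, ∑ J, cc I0 Z I * kik n (2 * q) l 0 Z I J * cc I0 Z J) (gau n (2 * q)) :=
      (integrable_finsetSum _ fun I _ => integrable_finsetSum _ fun J _ =>
        (integral_term hq I0 I J).1).const_mul _
    have h1 : ∫ Z, ((1 / √D) * (∑ J : Sub n l,
        if h : (symmDiff I0.1 J.1).card = 2 * q then |Z ⟨symmDiff I0.1 J.1, h⟩| else 0) +
        (1 / (2 * D)) * ∑ I, ∑ J, cc I0 Z I * kik n (2 * q) l 0 Z I J * cc I0 Z J)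
        ∂(gau n (2 * q)) = √D * ∫ x, |x| ∂(gaussianReal 0 1) := by
      rw [integral_add hint2 hint3, integral_const_mul, integral_const_mul,
        integral_finsetSum _ fun J _ => hint1 J,
        integral_finsetSum _ fun I _ => integrable_finsetSum _ fun J _ =>
          (integral_term hq I0 I J).1]
      have h2 : ∀ I : Sub n l, ∫ Z, ∑ J, cc (q := q) I0 Z I * kik n (2 * q) l 0 Z I J * cc I0 Z J
          ∂(gau n (2 * q)) = 0 := by
        intro I
        rw [integral_finsetSum _ fun J _ => (integral_term hq I0 I J).1]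
        exact Finset.sum_eq_zero fun J _ => (integral_term hq I0 I J).2
      have h3 : ∀ J : Sub n l, ∫ Z : Sub n (2 * q) → ℝ,
          (if h : (symmDiff I0.1 J.1).card = 2 * q then |Z ⟨symmDiff I0.1 J.1, h⟩| else 0)
          ∂(gau n (2 * q)) = (if (symmDiff I0.1 J.1).card = 2 * q then (1 : ℝ) else 0) *
            ∫ x, |x| ∂(gaussianReal 0 1) := by
        intro J
        by_cases h : (symmDiff I0.1 J.1).card = 2 * q
        · simp only [dif_pos h, if_pos h, one_mul]
          exact integral_absZ _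
        · simp [h]
      rw [Finset.sum_congr rfl fun J _ => h3 J, Finset.sum_congr rfl fun I _ => h2 I,
        ← Finset.sum_mul, hdeg]
      simp only [Finset.sum_const_zero, mul_zero, add_zero]
      rw [← mul_assoc, one_div_mul_eq_div, Real.div_sqrt]
    have h2 : √D * ∫ x, |x| ∂(gaussianReal 0 1) ≤ Elm n (2 * q) l 0 := by
      rw [← h1]
      unfold Elm
      refine integral_mono (hint2.add hint3) (INTEG n (2 * q) l 0).2.1 fun Z => ?_
      show _ ≤ lmax (kik n (2 * q) l 0 Z)
      have h3 := LMAXB (kik n (2 * q) l 0 Z) (tv D I0 Z) (tv_unit hq I0 Z D hD hdeg)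
      rw [tv_form hq I0 Z D hD] at h3
      exact h3
    have h3 : 0 ≤ √D := Real.sqrt_nonneg D
    have h4 := abs_mean
    nlinarith
  · rw [← hD, Real.sqrt_zero, mul_zero]
    unfold Elm
    refine integral_nonneg fun Z => ?_
    have h3 := LMAXB (kik n (2 * q) l 0 Z) (fun K => if K = I0 then (1 : ℝ) else 0) (by simp)
    have h4 : ∑ i, ∑ j, (if i = I0 then (1 : ℝ) else 0) * kik n (2 * q) l 0 Z i j *
        (if j = I0 then (1 : ℝ) else 0) = 0 := by
      simp [kik_diag hq]
    rw [h4] at h3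
    exact h3

end KK14
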